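import Mathlib
import Pool.Agent.H91.LonelyFour
import Pool.Agent.H91.LonelySpace

/-!
The diagonal point `D_3 = (1/4, 1/4, 1/4)` lies in `MLPS_3` and is a convex combination of
upper-boundary points of `MLPS_3` other than `D_3`.

Idea: `(71/200, 99/500, 99/500)` lies in `MLPS_3` and has coordinate sum larger than `3/4`; a
maximal point above it, and its rotations, average to a multiple of `(1,1,1)` beyond `D_3`.  A
maximal point above `(5/12, 1/25, 1/25)` has coordinate sum at most `3/4`, since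
`2 d_1 + d_2 ≤ 1` and `2 d_1 + d_3 ≤ 1` on `MLPS_3`.
-/

namespace Pool.Agent.Results.MP_b0d7fb_nt.DiagonalInHull

open Pool.Agent.H91.LonelySpace Pool.Agent.H91.Lonely

theorem diag_three_mem : diag 3 ∈ MLPS 3 := by
  refine ⟨fun i => ?_, ?_⟩
  · unfold diag
    norm_num
  · intro s hs1 _
    have h0 : (0 : ℝ) < s 0 := by exact_mod_cast hs1 0
    have h1 : (0 : ℝ) < s 1 := by exact_mod_cast hs1 1
    have h2 : (0 : ℝ) < s 2 := by exact_mod_cast hs1 2
    obtain ⟨t, k0, k1, k2⟩ := quarter h0 h1 h2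
    have e : ∀ i, diag 3 i = 1 / 4 := by intro i; unfold diag; norm_num
    refine ⟨t, fun i => ?_⟩
    rw [e]
    fin_cases i
    · exact k0.dist_ge
    · exact k1.dist_ge
    · exact k2.dist_ge

/-- The point with large coordinate sum. -/
noncomputable def uPt : Fin 3 → ℝ := ![71 / 200, 99 / 500, 99 / 500]

theorem uPt_mem : uPt ∈ MLPS 3 := by
  refine ⟨fun i => ?_, ?_⟩
  · fin_cases i <;> simp [uPt] <;> norm_num
  · intro s hs1 _
    have h0 : (0 : ℝ) < s 0 := by exact_mod_cast hs1 0
    have h1 : (0 : ℝ) < s 1 := by exact_mod_cast hs1 1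
    have h2 : (0 : ℝ) < s 2 := by exact_mod_cast hs1 2
    obtain ⟨t, k0, k1, k2⟩ := mixed h0 h1 h2
    refine ⟨t, fun i => ?_⟩
    fin_cases i
    · have := k0.dist_ge
      simp only [aa] at this
      simp only [uPt, distInt, Fin.zero_eta, Matrix.cons_val_zero]
      linarith
    · have := k1.dist_ge
      simp only [bb] at this
      simp only [uPt, distInt, Fin.mk_one, Matrix.cons_val_one, Matrix.cons_val_zero]
      linarith
    · have := k2.dist_ge
      simp only [bb] at this
      simp only [uPt, distInt, Fin.reduceFinMk, Matrix.cons_val]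
      linarith

/-- The point whose first coordinate is large. -/
noncomputable def vPt : Fin 3 → ℝ := ![5 / 12, 1 / 25, 1 / 25]

theorem vPt_mem : vPt ∈ MLPS 3 := by
  refine ⟨fun i => ?_, MLRC_of_sum_lt (fun i => ?_) ?_⟩
  · fin_cases i <;> simp [vPt] <;> norm_num
  · fin_cases i <;> norm_num [vPt]
  · simp only [Fin.sum_univ_three, vPt, Matrix.cons_val_zero, Matrix.cons_val_one,
      Matrix.cons_val]
    norm_num

/-- On `MLPS 3` one has `2 d_0 + d_1 ≤ 1` and `2 d_0 + d_2 ≤ 1`. -/
theorem two_mul_add_le {d : Fin 3 → ℝ} (hd : d ∈ MLPS 3) :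
    2 * d 0 + d 1 ≤ 1 ∧ 2 * d 0 + d 2 ≤ 1 := by
  have key : ∀ e : Fin 3 → ℝ, e ∈ MLPS 3 → 2 * e 0 + e 1 ≤ 1 := by
    intro e he
    obtain ⟨t, ht⟩ := he.2 ![1, 2, 3] (by decide) (by decide)
    have h0 := ht 0
    have h1 := ht 1
    simp only [Matrix.cons_val_zero, Matrix.cons_val_one, Nat.cast_one, one_mul,
      Nat.cast_ofNat] at h0 h1
    have h2 := distInt_two_mul t
    linarith
  refine ⟨key d hd, ?_⟩
  have h := key _ (MLPS_comp_perm hd (Equiv.swap 1 2))
  have e0 : (Equiv.swap (1 : Fin 3) 2) 0 = 0 := by decide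
  have e1 : (Equiv.swap (1 : Fin 3) 2) 1 = 2 := by decide
  simp only [e0, e1] at h
  exact h

/-- If all coordinate permutations of `w` lie in `S`, then the average of the three rotations of
`w`, a multiple of `(1, 1, 1)`, lies in the convex hull of `S`. -/
theorem average_mem {w : Fin 3 → ℝ} {S : Set (Fin 3 → ℝ)}
    (hS : ∀ σ : Equiv.Perm (Fin 3), (fun i => w (σ i)) ∈ S) :
    (fun _ : Fin 3 => (w 0 + w 1 + w 2) / 3) ∈ convexHull ℝ S := by
  have hc := convex_convexHull ℝ S
  have m0 : w ∈ convexHull ℝ S := subset_convexHull ℝ S (by simpa using hS 1)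
  have m1 : (fun i => w (finRotate 3 i)) ∈ convexHull ℝ S := subset_convexHull ℝ S (hS _)
  have m2 : (fun i => w ((finRotate 3 * finRotate 3) i)) ∈ convexHull ℝ S :=
    subset_convexHull ℝ S (hS _)
  have h1 := hc m0 m1 (a := 1 / 2) (b := 1 / 2) (by norm_num) (by norm_num) (by norm_num)
  have h2 := hc h1 m2 (a := 2 / 3) (b := 1 / 3) (by norm_num) (by norm_num) (by norm_num)
  have e : (2 / 3 : ℝ) • ((1 / 2 : ℝ) • w + (1 / 2 : ℝ) • fun i => w (finRotate 3 i))
      + (1 / 3 : ℝ) • (fun i => w ((finRotate 3 * finRotate 3) i))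
      = (fun _ : Fin 3 => (w 0 + w 1 + w 2) / 3) := by
    funext i
    have r0 : finRotate 3 0 = 1 := by decide
    have r1 : finRotate 3 1 = 2 := by decide
    have r2 : finRotate 3 2 = 0 := by decide
    fin_cases i
    · simp only [Pi.add_apply, Pi.smul_apply, smul_eq_mul, Equiv.Perm.mul_apply,
        Fin.zero_eta, r0, r1]
      ring
    · simp only [Pi.add_apply, Pi.smul_apply, smul_eq_mul, Equiv.Perm.mul_apply,
        Fin.mk_one, r1, r2]
      ring
    · simp only [Pi.add_apply, Pi.smul_apply, smul_eq_mul, Equiv.Perm.mul_apply,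
        Fin.reduceFinMk, r2, r0]
      ring
  rwa [e] at h2

/-- The diagonal point `D_3` is in `MLPS_3` and is a convex combination of upper-boundary points
of `MLPS_3` different from `D_3`. -/
theorem result : diag 3 ∈ MLPS 3 ∧ diag 3 ∈ convexHull ℝ (upperBoundary 3 \ {diag 3}) := by
  refine ⟨diag_three_mem, ?_⟩
  obtain ⟨u, hu, hule⟩ := exists_upperBoundary_ge uPt_mem
  obtain ⟨v, hv, hvle⟩ := exists_upperBoundary_ge vPt_mem
  have hD : ∀ i, diag 3 i = 1 / 4 := by intro i; unfold diag; norm_num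
  have u0 : 71 / 200 ≤ u 0 := by simpa [uPt] using hule 0
  have u1 : 99 / 500 ≤ u 1 := by simpa [uPt] using hule 1
  have u2 : 99 / 500 ≤ u 2 := by simpa [uPt] using hule 2
  have v0 : 5 / 12 ≤ v 0 := by simpa [vPt] using hvle 0
  have hv12 := two_mul_add_le hv.1
  -- all permutations of `u` and `v` are upper boundary points other than the diagonal point
  have hne : ∀ (w : Fin 3 → ℝ), w ∈ upperBoundary 3 → 1 / 4 < w 0 →
      ∀ σ : Equiv.Perm (Fin 3), (fun i => w (σ i)) ∈ upperBoundary 3 \ {diag 3} := by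
    intro w hw hw0 σ
    refine ⟨upperBoundary_comp_perm hw σ, ?_⟩
    intro h
    have h' : (fun i => w (σ i)) = diag 3 := h
    have := congrFun h' (σ.symm 0)
    rw [hD] at this
    simp only [Equiv.apply_symm_apply] at this
    linarith
  have hU := average_mem (hne u hu (by linarith))
  have hV := average_mem (hne v hv (by linarith))
  set p := (u 0 + u 1 + u 2) / 3 with hp
  set q := (v 0 + v 1 + v 2) / 3 with hq
  have hp' : 1 / 4 < p := by rw [hp]; linarith
  have hq' : q ≤ 1 / 4 := by rw [hq]; linarith [hv12.1, hv12.2]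
  have hpq : 0 < p - q := by linarith
  have hcomb := (convex_convexHull ℝ (upperBoundary 3 \ {diag 3})) hU hV
    (a := (1 / 4 - q) / (p - q)) (b := (p - 1 / 4) / (p - q))
    (div_nonneg (by linarith) hpq.le) (div_nonneg (by linarith) hpq.le)
    (by rw [← add_div]; rw [div_eq_one_iff_eq hpq.ne']; ring)
  have e : ((1 / 4 - q) / (p - q)) • (fun _ : Fin 3 => p)
      + ((p - 1 / 4) / (p - q)) • (fun _ : Fin 3 => q) = diag 3 := by
    funext i
    simp only [Pi.add_apply, Pi.smul_apply, smul_eq_mul, hD]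
    field_simp
    ring
  rwa [e] at hcomb

end Pool.Agent.Results.MP_b0d7fb_nt.DiagonalInHull
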